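import Pool.Agent.Helper40.W4.Spec

/-!
# Part TOW: universality of binary forms over finite extensions
-/

set_option autoImplicit false

namespace Pool.Agent.Helper39.W4

open Pool.Agent.Helper40.W4 Polynomial Module IntermediateField

lemma univ_of_surj {E F : Type} [Field E] [Field F] (φ : E →+* F)
    (hφ : Function.Surjective φ) (h : Univ E) : Univ F := by
  intro α β hα hβ
  obtain ⟨α, rfl⟩ := hφ α
  obtain ⟨β, rfl⟩ := hφ β
  obtain ⟨x, y, hxy⟩ := h α β (by rintro rfl; simp at hα) (by rintro rfl; simp at hβ)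
  exact ⟨φ x, φ y, by rw [← hxy]; simp⟩

lemma finrank_odd {k F : Type} [Field k] [CharZero k] (hk : OddClosed k) [Field F] [Algebra k F]
    [FiniteDimensional k F] (h : Odd (finrank k F)) : finrank k F = 1 := by
  obtain ⟨θ, hθ⟩ := Field.exists_primitive_element k F
  have hint : IsIntegral k θ := Algebra.IsIntegral.isIntegral θ
  have h1 : (minpoly k θ).natDegree = finrank k F := by
    rw [← IntermediateField.adjoin.finrank hint, hθ, finrank_top']
  obtain ⟨x, hx⟩ := hk (minpoly k θ) (by rw [h1]; exact h)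
  have h2 := degree_eq_one_of_irreducible_of_root (minpoly.irreducible hint) hx
  rw [← h1]
  exact natDegree_eq_of_degree_eq_some h2

lemma card_two_pow {k M : Type} [Field k] [CharZero k] (hk : OddClosed k) [Field M] [Algebra k M]
    [FiniteDimensional k M] [IsGalois k M] : ∃ r : ℕ, Nat.card Gal(M/k) = 2 ^ r := by
  classical
  have : Fact (Nat.Prime 2) := ⟨Nat.prime_two⟩
  let P : Sylow 2 Gal(M/k) := default
  have h1 : ¬ 2 ∣ (P : Subgroup Gal(M/k)).index := P.not_dvd_index
  have h2 := finrank_mul_finrank k (fixedField (P : Subgroup Gal(M/k))) M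
  rw [IntermediateField.finrank_fixedField_eq_card, ← IsGalois.card_aut_eq_finrank k M,
    ← Subgroup.index_mul_card (P : Subgroup Gal(M/k))] at h2
  have h3 : finrank k (fixedField (P : Subgroup Gal(M/k))) = (P : Subgroup Gal(M/k)).index :=
    Nat.eq_of_mul_eq_mul_right Nat.card_pos h2
  have h4 : (P : Subgroup Gal(M/k)).index = 1 := by
    rw [← h3]
    apply finrank_odd hk
    rw [h3]
    exact Nat.not_even_iff_odd.1 (fun h => h1 h.two_dvd)
  have h5 := Subgroup.index_mul_card (P : Subgroup Gal(M/k))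
  rw [h4, one_mul] at h5
  obtain ⟨r, hr⟩ := (IsPGroup.iff_card.1 P.2)
  exact ⟨r, by rw [← h5]; exact hr⟩

lemma chain_step (h : S_UNIQ) {k M : Type} [Field k] [CharZero k] [Field M] [Algebra k M]
    [FiniteDimensional k M] [IsGalois k M] (A B : IntermediateField k M) (hAB : A ≤ B)
    (hr : relfinrank A B = 2) (hi : ∃ i ∈ A, i ^ 2 = -1) (hA : Univ A) : Univ B := by
  have h1 : finrank A (extendScalars hAB) = 2 := by
    rw [← relfinrank_eq_finrank_of_le hAB, hr]
  have : CharZero A := charZero_of_injective_algebraMap (algebraMap k A).injective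
  obtain ⟨i, hiA, hi2⟩ := hi
  have h2 : Univ (extendScalars hAB) := h A (extendScalars hAB) h1
    ⟨⟨i, hiA⟩, by ext; simpa using hi2⟩ hA
  intro α β hα hβ
  obtain ⟨x, y, hxy⟩ := h2 ⟨α, α.2⟩ ⟨β, β.2⟩ (by
    intro h0; apply hα; ext; simpa using congrArg Subtype.val h0) (by
    intro h0; apply hβ; ext; simpa using congrArg Subtype.val h0)
  refine ⟨⟨x, x.2⟩, ⟨y, y.2⟩, ?_⟩
  exact Subtype.ext (show (x : M) ^ 2 - (α : M) * (y : M) ^ 2 = (β : M) from
    congrArg Subtype.val hxy)

lemma chain (h : S_UNIQ) {k M : Type} [Field k] [CharZero k] [Field M] [Algebra k M]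
    [FiniteDimensional k M] [IsGalois k M] (n : ℕ) : ∀ (m : ℕ) (H' H : Subgroup Gal(M/k)),
    H' ≤ H → Nat.card H' = 2 ^ m → Nat.card H = 2 ^ (m + n) →
    (∃ i ∈ fixedField H, i ^ 2 = -1) → Univ (fixedField H) → Univ (fixedField H') := by
  have : Fact (Nat.Prime 2) := ⟨Nat.prime_two⟩
  induction n with
  | zero =>
    intro m H' H hle h1 h2 _ hU
    have : H' = H := Subgroup.eq_of_le_of_card_ge hle (by rw [h1, h2, add_zero])
    subst this
    exact hU
  | succ n ih =>
    intro m H' H hle h1 h2 hi hU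
    obtain ⟨K, hK, hHK⟩ := Sylow.exists_subgroup_card_pow_succ (G := H) (p := 2) (n := m)
      (by rw [h2]; exact pow_dvd_pow _ (by omega)) (H := H'.subgroupOf H)
      (by rw [← h1]; exact Nat.card_congr (Subgroup.subgroupOfEquivOfLe hle).toEquiv)
    let K' : Subgroup Gal(M/k) := K.map H.subtype
    have hK' : Nat.card K' = 2 ^ (m + 1) := by
      rw [← hK]
      exact (Nat.card_congr (K.equivMapOfInjective H.subtype H.subtype_injective).toEquiv).symm
    have hK'H : K' ≤ H := by
      rintro _ ⟨x, _, rfl⟩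
      exact x.2
    have hH'K' : H' ≤ K' := by
      intro x hx
      exact ⟨⟨x, hle hx⟩, hHK (by simpa [Subgroup.mem_subgroupOf] using hx), rfl⟩
    have hUK := ih (m + 1) K' H hK'H hK' (by rw [h2]; ring_nf) hi hU
    have hle2 : fixedField K' ≤ fixedField H' := fixedField_antitone hH'K'
    have hle3 : fixedField H ≤ fixedField K' := fixedField_antitone hK'H
    refine chain_step h _ _ hle2 ?_ ?_ hUK
    · have h3 := relfinrank_mul_finrank_top hle2
      rw [IntermediateField.finrank_fixedField_eq_card, IntermediateField.finrank_fixedField_eq_card,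
        hK', h1, pow_succ, mul_comm] at h3
      exact Nat.eq_of_mul_eq_mul_left (by positivity) h3
    · obtain ⟨i, hi, hi2⟩ := hi
      exact ⟨i, hle3 hi, hi2⟩

theorem tow_thm (h : S_UNIQ) : S_TOW := by
  intro k _ _ hk E _ _ i hi hik hU l _ _ _ ⟨j, hj⟩
  let Ω := AlgebraicClosure l
  have : Algebra.IsAlgebraic k Ω := Algebra.IsAlgebraic.trans k l Ω
  have : IsAlgClosure k Ω := ⟨inferInstance, inferInstance⟩
  have : Normal k Ω := IsAlgClosure.normal k Ω
  let M := IntermediateField.normalClosure k l Ω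
  have : Normal k M := normalClosure.normal k l Ω
  have : FiniteDimensional k M := normalClosure.is_finiteDimensional k l Ω
  have : IsGalois k M := ⟨⟩
  let ψ : l →ₐ[k] M := IsScalarTower.toAlgHom k l M
  have hψ : ψ j ^ 2 = -1 := by rw [← map_pow, hj, map_neg, map_one]
  have hmon : (X ^ 2 + 1 : k[X]).Monic := by
    have := monic_X_pow_add_C (R := k) (n := 2) 1 (by norm_num)
    simpa using this
  have hint : IsIntegral k i := ⟨X ^ 2 + 1, hmon, by simp [hi]⟩
  have hsp : ((minpoly k i).map (algebraMap k M)).Splits := by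
    have h1 : minpoly k i ∣ X ^ 2 + 1 := minpoly.dvd k i (by simp [hi])
    have h2 : (X ^ 2 + 1 : k[X]).map (algebraMap k M) = (X - C (ψ j)) * (X - C (-ψ j)) := by
      have : C (ψ j) * C (ψ j) = (-1 : M[X]) := by rw [← C_mul, ← pow_two, hψ]; simp
      simp only [Polynomial.map_add, Polynomial.map_pow, map_X, Polynomial.map_one, C_neg]
      linear_combination this
    refine Splits.of_dvd ?_ (by rw [Ne, Polynomial.map_eq_zero]; exact hmon.ne_zero)
      (Polynomial.map_dvd _ h1)
    rw [h2]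
    exact (Splits.X_sub_C _).mul (Splits.X_sub_C _)
  obtain ⟨φ⟩ : Nonempty (E →ₐ[k] M) := by
    refine nonempty_algHom_of_adjoin_splits (S := {i}) ?_ hik
    intro s hs
    rw [Set.mem_singleton_iff] at hs
    subst hs
    exact ⟨hint, hsp⟩
  have hφ : φ i ^ 2 = -1 := by rw [← map_pow, hi, map_neg, map_one]
  let A : IntermediateField k M := φ.fieldRange
  let B : IntermediateField k M := ψ.fieldRange
  have hAB : A ≤ B := by
    have h1 : A = k⟮φ i⟯ := by
      show φ.fieldRange = _
      rw [AlgHom.fieldRange_eq_map, ← hik, adjoin_map, Set.image_singleton]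
    rw [h1, adjoin_simple_le_iff]
    have h2 : (φ i - ψ j) * (φ i + ψ j) = 0 := by linear_combination hφ - hψ
    rcases mul_eq_zero.1 h2 with h3 | h3
    · rw [sub_eq_zero.1 h3]
      exact ⟨j, rfl⟩
    · rw [eq_neg_of_add_eq_zero_left h3]
      exact neg_mem ⟨j, rfl⟩
  have hA : Univ A := by
    refine univ_of_surj (RingHom.codRestrict (φ : E →+* M) A (fun x => ⟨x, rfl⟩)) ?_ hU
    rintro ⟨_, x, rfl⟩
    exact ⟨x, rfl⟩
  obtain ⟨r, hr⟩ := card_two_pow (k := k) (M := M) hk
  obtain ⟨a, -, ha⟩ := (Nat.dvd_prime_pow Nat.prime_two).1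
    (hr ▸ Subgroup.card_subgroup_dvd_card A.fixingSubgroup)
  obtain ⟨b, -, hb⟩ := (Nat.dvd_prime_pow Nat.prime_two).1
    (hr ▸ Subgroup.card_subgroup_dvd_card B.fixingSubgroup)
  have hle : B.fixingSubgroup ≤ A.fixingSubgroup := fixingSubgroup_antitone hAB
  have hab : b ≤ a := by
    have h1 := Subgroup.card_le_of_le hle
    rw [ha, hb] at h1
    exact (Nat.pow_le_pow_iff_right (by norm_num)).1 h1
  have hB : Univ B := by
    have := chain h (a - b) b B.fixingSubgroup A.fixingSubgroup hle hb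
      (by rw [ha]; congr 1; omega)
      (by rw [IsGalois.fixedField_fixingSubgroup]; exact ⟨φ i, ⟨i, rfl⟩, hφ⟩)
      (by rw [IsGalois.fixedField_fixingSubgroup]; exact hA)
    rwa [IsGalois.fixedField_fixingSubgroup] at this
  intro α β hα hβ
  obtain ⟨⟨_, x, rfl⟩, ⟨_, y, rfl⟩, hxy⟩ := hB ⟨ψ α, ⟨α, rfl⟩⟩ ⟨ψ β, ⟨β, rfl⟩⟩
    (by intro h0; apply hα; apply ψ.injective; rw [map_zero]; exact congrArg Subtype.val h0)
    (by intro h0; apply hβ; apply ψ.injective; rw [map_zero]; exact congrArg Subtype.val h0)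
  refine ⟨x, y, ψ.injective ?_⟩
  have h1 := congrArg Subtype.val hxy
  rw [map_sub, map_mul, map_pow, map_pow]
  exact h1

end Pool.Agent.Helper39.W4
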